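import Pool.Agent.Q131.RelaxMain

/-!
# The gap between relaxation complexity and hiding set bound is unbounded in dimension five

`rc X - hidingBound X` is unbounded over the finite, full-dimensional, lattice-convex subsets
`X` of `ℤ^5`; hence there is no constant `h_5`.  (All definitions are in
`Pool.Agent.Q131.RelaxDefs`.)
-/

namespace Pool.Agent.Results.MP_288038_co.GapUnbounded

open Q131.Relax

theorem gap (h : ℕ) : ∃ X : Set (Fin 5 → ℤ), X.Finite ∧ FullDimensional X ∧ LatticeConvex X ∧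
    {m | HasRelaxation m X}.Nonempty ∧
    BddAbove {n | ∃ H : Finset (Fin 5 → ℤ), IsHidingSet X H ∧ H.card = n} ∧
    hidingBound X + h < rc X := by
  refine ⟨X (h + 10), finite_X (by omega), fullDimensional (by omega), latticeConvex _,
    hasRelaxation _, ⟨5 * (h + 10) + 9, ?_⟩, ?_⟩
  · rintro n ⟨H, hH, rfl⟩
    exact hiding_le hH
  · have h1 := rc_ge (h + 10)
    have h2 := hidingBound_le (h + 10)
    omega

theorem result :
    (∀ h : ℕ, ∃ X : Set (Fin 5 → ℤ), X.Finite ∧ FullDimensional X ∧ LatticeConvex X ∧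
      {m | HasRelaxation m X}.Nonempty ∧
      BddAbove {n | ∃ H : Finset (Fin 5 → ℤ), IsHidingSet X H ∧ H.card = n} ∧
      hidingBound X + h < rc X) ∧
    ¬ (∀ d : ℕ, 1 ≤ d → ∃ h : ℕ, ∀ X : Set (Fin d → ℤ), X.Finite → FullDimensional X →
      LatticeConvex X → rc X ≤ hidingBound X + h) := by
  refine ⟨gap, ?_⟩
  intro hall
  obtain ⟨h, hh⟩ := hall 5 (by norm_num)
  obtain ⟨X, h1, h2, h3, _, _, h4⟩ := gap h
  have := hh X h1 h2 h3
  omega

end Pool.Agent.Results.MP_288038_co.GapUnbounded
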